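import Pool.Agent.Y817.ISO.Stm

set_option autoImplicit false

/-!
ISO-ARITH (helper817, S14615): c.e. relations on the natural numbers are defined by finite systems of
quadratic equations over the integers.
-/

namespace Pool.Agent.Y786.ISO

open Pool.Agent.Helper844.Sys Pool.Agent.Y817.ISO

/-- decoding of `k = (a + b) ^ 2 + a` -/
def dec (k : ℕ) : ℕ × ℕ :=
  (k - Nat.sqrt k * Nat.sqrt k, Nat.sqrt k - (k - Nat.sqrt k * Nat.sqrt k))

theorem dec_computable : Computable dec := by
  have h1 : Primrec (fun k : ℕ => Nat.sqrt k) := Primrec.nat_sqrt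
  have h2 : Primrec (fun k : ℕ => k - Nat.sqrt k * Nat.sqrt k) :=
    Primrec.nat_sub.comp Primrec.id (Primrec.nat_mul.comp h1 h1)
  exact (Primrec.pair h2 (Primrec.nat_sub.comp h1 h2)).to_comp

theorem dec_eq (a b : ℕ) : dec ((a + b) * (a + b) + a) = (a, b) := by
  have h1 : Nat.sqrt ((a + b) * (a + b) + a) = a + b := Nat.sqrt_add_eq _ (by omega)
  unfold dec
  rw [h1, Nat.add_sub_cancel_left, Nat.add_sub_cancel_left]

theorem dec_re (R : ℕ → ℕ → Prop) (hR : REPred (fun p : ℕ × ℕ => R p.1 p.2)) :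
    REPred (fun k : ℕ => R (dec k).1 (dec k).2) :=
  Partrec.comp hR dec_computable

theorem t : StmArith := by
  intro R hR
  obtain ⟨V, iV, F, L, hL⟩ := exists_system _ (Pool.Agent.Helper844.Dio.dprm (dec_re R hR))
  have hT : REPred (fun _ : ℕ => True) := by
    have h := Computable.const (α := ℕ) () |>.partrec
    unfold REPred
    refine h.of_eq fun n => ?_
    apply Part.ext'
    · exact ⟨fun _ => ⟨trivial, trivial⟩, fun _ => trivial⟩
    · intros; rfl
  obtain ⟨V₁, iV₁, F₁, L₁, hL₁⟩ := exists_system _ (Pool.Agent.Helper844.Dio.dprm hT)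
  let X := V ⊕ (V₁ ⊕ (V₁ ⊕ Fin 3))
  let i0 : V → X := Sum.inl
  let i1 : V₁ → X := fun x => Sum.inr (Sum.inl x)
  let i2 : V₁ → X := fun x => Sum.inr (Sum.inr (Sum.inl x))
  let n : X := Sum.inr (Sum.inr (Sum.inr 0))
  let m : X := Sum.inr (Sum.inr (Sum.inr 1))
  let w : X := Sum.inr (Sum.inr (Sum.inr 2))
  let E : List (Eqn X) := [⟨n, n, w, n, m, 0, 1, -1, -1, 0⟩, ⟨w, w, i0 F, n, n, 4, 1, 4, 0, -1⟩,
    ⟨n, n, i1 F₁, n, n, 0, 1, 4, 0, -1⟩, ⟨n, n, i2 F₁, m, m, 0, 1, 4, 0, -1⟩]
  refine ⟨X, inferInstance, n, m,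
    E ++ (L.map (Eqn.map i0) ++ (L₁.map (Eqn.map i1) ++ L₁.map (Eqn.map i2))), ?_, ?_⟩
  · intro h
    have h1 : (0 : Fin 3) = 1 := Sum.inr_injective (Sum.inr_injective (Sum.inr_injective h))
    exact absurd h1 (by decide)
  · intro a b
    constructor
    · rintro ⟨v, hn, hm, hv⟩
      have e0 : v w = v n + v m := by
        have h := hv ⟨n, n, w, n, m, 0, 1, -1, -1, 0⟩ (List.mem_append_left _ (by simp [E]))
        simp only [Eqn.Holds] at h
        linarith
      have e1 : v (i0 F) = 1 - 4 * (v w * v w + v n) := by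
        have h := hv ⟨w, w, i0 F, n, n, 4, 1, 4, 0, -1⟩ (List.mem_append_left _ (by simp [E]))
        simp only [Eqn.Holds] at h
        linarith
      have e2 : v (i1 F₁) = 1 - 4 * v n := by
        have h := hv ⟨n, n, i1 F₁, n, n, 0, 1, 4, 0, -1⟩ (List.mem_append_left _ (by simp [E]))
        simp only [Eqn.Holds] at h
        linarith
      have e3 : v (i2 F₁) = 1 - 4 * v m := by
        have h := hv ⟨n, n, i2 F₁, m, m, 0, 1, 4, 0, -1⟩ (List.mem_append_left _ (by simp [E]))
        simp only [Eqn.Holds] at h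
        linarith
      have h0 : ∀ q ∈ L, q.Holds (v ∘ i0) := by
        intro q hq
        rw [← Eqn.holds_map]
        exact hv _ (List.mem_append_right _ (List.mem_append_left _ (List.mem_map_of_mem hq)))
      have h1 : ∀ q ∈ L₁, q.Holds (v ∘ i1) := by
        intro q hq
        rw [← Eqn.holds_map]
        exact hv _ (List.mem_append_right _ (List.mem_append_right _
          (List.mem_append_left _ (List.mem_map_of_mem hq))))
      have h2 : ∀ q ∈ L₁, q.Holds (v ∘ i2) := by
        intro q hq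
        rw [← Eqn.holds_map]
        exact hv _ (List.mem_append_right _ (List.mem_append_right _
          (List.mem_append_right _ (List.mem_map_of_mem hq))))
      obtain ⟨k, hk, hk'⟩ := (hL _).1 ⟨v ∘ i0, rfl, h0⟩
      obtain ⟨a', -, ha'⟩ := (hL₁ _).1 ⟨v ∘ i1, rfl, h1⟩
      obtain ⟨b', -, hb'⟩ := (hL₁ _).1 ⟨v ∘ i2, rfl, h2⟩
      simp only [Function.comp] at hk' ha' hb'
      have ha : v n = a' := by linarith
      have hb : v m = b' := by linarith
      have hkk : (k : ℤ) = ((a' + b') * (a' + b') + a' : ℕ) := by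
        push_cast
        rw [← ha, ← hb, ← e0]
        linarith
      have hk2 : k = (a' + b') * (a' + b') + a' := by exact_mod_cast hkk
      refine ⟨a', b', by rw [← hn, ha], by rw [← hm, hb], ?_⟩
      rw [hk2, dec_eq] at hk
      exact hk
    · rintro ⟨a', b', rfl, rfl, hR'⟩
      obtain ⟨x, hx, hxL⟩ := (hL (1 - 4 * (((a' + b') * (a' + b') + a' : ℕ) : ℤ))).2
        ⟨(a' + b') * (a' + b') + a', by rw [dec_eq]; exact hR', rfl⟩
      obtain ⟨x₁, hx₁, hxL₁⟩ := (hL₁ (1 - 4 * (a' : ℤ))).2 ⟨a', trivial, rfl⟩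
      obtain ⟨x₂, hx₂, hxL₂⟩ := (hL₁ (1 - 4 * (b' : ℤ))).2 ⟨b', trivial, rfl⟩
      refine ⟨Sum.elim x (Sum.elim x₁ (Sum.elim x₂ ![(a' : ℤ), (b' : ℤ), (a' : ℤ) + b'])), rfl, rfl, ?_⟩
      intro q hq
      rw [List.mem_append, List.mem_append, List.mem_append, List.mem_map, List.mem_map,
        List.mem_map] at hq
      rcases hq with hq | ⟨q, hq, rfl⟩ | ⟨q, hq, rfl⟩ | ⟨q, hq, rfl⟩
      · simp only [E, List.mem_cons, List.not_mem_nil, or_false] at hq
        rcases hq with rfl | rfl | rfl | rfl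
        · simp only [Eqn.Holds, n, m, w, Sum.elim_inr, Matrix.cons_val_zero, Matrix.cons_val_one,
            Matrix.cons_val]
          ring
        · simp only [Eqn.Holds, n, w, i0, Sum.elim_inr, Sum.elim_inl, Matrix.cons_val_zero,
            Matrix.cons_val, hx]
          push_cast
          ring
        · simp only [Eqn.Holds, n, i1, Sum.elim_inr, Sum.elim_inl, Matrix.cons_val_zero, hx₁]
          ring
        · simp only [Eqn.Holds, n, m, i2, Sum.elim_inr, Sum.elim_inl, Matrix.cons_val_zero,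
            Matrix.cons_val_one, hx₂]
          ring
      · rw [Eqn.holds_map]
        exact hxL q hq
      · rw [Eqn.holds_map]
        exact hxL₁ q hq
      · rw [Eqn.holds_map]
        exact hxL₂ q hq

end Pool.Agent.Y786.ISO
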